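import Pool.Agent.Y804.TV.Adm
import Pool.Agent.Y804.TV.Lin

/-!
# The Tate cohomology of an admissible representation is admissible

Let `G` be a locally profinite group with a compact open subgroup of pro-order prime to `p`, and
`σ` a continuous automorphism of `G` with `σ^p = 1`. For every admissible representation `V` of `G`
over a field of characteristic `p` with a compatible action of `σ`, the representations
`T^0 = ker (1 - σ) / N V` and `T^1 = ker N / (1 - σ) V` of `G^σ` are admissible. This applies to the
closed subgroups of `GL_n(F)`, for `F` a local field of residue characteristic different from `p`.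
-/

set_option autoImplicit false

open Pool.Agent.Y804.TV

namespace Pool.Agent.Results.MP_60b77b_nt.TateCohomologyAdmissible

universe u v w

theorem result (p : ℕ) [Fact p.Prime] (k : Type u) [Field k] [CharP k p] (V : Type v)
    [AddCommGroup V] [Module k V] :
    (∀ (G : Type w) [Group G] [TopologicalSpace G] [IsTopologicalGroup G]
      [TotallyDisconnectedSpace G], LocallyPrimeTo p G → TateAdmissible p k V G) ∧
    (∀ (F : Type w) [NontriviallyNormedField F] [IsUltrametricDist F] [LocallyCompactSpace F],
      ‖(p : F)‖ = 1 → TateAdmissibleLinear p k V F) := by
  have hp : p.Prime := Fact.out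
  refine ⟨?_, ?_⟩
  · intro G _ _ _ _ hG σ hσ hσp ρ e hρ
    exact main hp hσ hσp hG hρ e
  · intro F _ _ _ hpF n G hG σ hσ hσp ρ e hρ
    exact main hp hσ hσp (locallyPrimeTo_closed hp hpF G hG) hρ e

end Pool.Agent.Results.MP_60b77b_nt.TateCohomologyAdmissible
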